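import Pool.Agent.Helper45.U4.St3

/-!
# Project U4 (MP_a1f43d_co), module EXA: the multiset `X`
-/

set_option autoImplicit false

open Module Classical
open scoped LinearAlgebra.Projectivization

namespace Pool.Agent.Helper40.U4

open Pool.Agent.Helper45.U4 Pool.Agent.Helper53.PB

/-- the functions in the maximality argument -/
private def CC {F V : Type} [Field F] [AddCommGroup V] [Module F V] [Finite V] (φ : Form F V)
    (T : Finset (ℙ F V)) (X : ℙ F V → ℤ) : Prop :=
  (∀ y, 0 ≤ X y) ∧ Sup φ.toPolar X ∧ ∀ U, φ.toPolar.Gen U → tf X U ≤ (tt T U : ℤ) - 1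

private lemma cc_f {F V : Type} [Field F] [AddCommGroup V] [Module F V] [Finite V]
    {φ : Form F V} {T : Finset (ℙ F V)} (hM : Mn φ T) {X : ℙ F V → ℤ} (hX : CC φ T X) :
    Sup φ.toPolar (fun y => chi T y - X y) ∧
    (∀ U, tf (fun y => chi T y - X y) U = (tt T U : ℤ) - tf X U) ∧
    (∀ U, φ.toPolar.Gen U → 1 ≤ tf (fun y => chi T y - X y) U) ∧
    ∑ y, (chi T y - X y) = 139 - ∑ y, X y := by
  have h1 : ∀ U, tf (fun y => chi T y - X y) U = (tt T U : ℤ) - tf X U := by
    intro U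
    rw [tf_sub, tf_chi]
  refine ⟨(sup_chi hM.block.1).sub hX.2.1, h1, ?_, ?_⟩
  · intro U hU
    rw [h1]
    have := hX.2.2 U hU
    linarith
  · rw [Finset.sum_sub_distrib, sum_chi, hM.card]
    norm_num

private lemma step (h1 : StHNB) (h2 : StRFO) (h4 : StNBX) (h5 : StMNB) (h6 : StTAN)
    (h7 : StHLN) {F V : Type} [Field F] [AddCommGroup V] [Module F V] [Finite F] [Finite V]
    [FiniteDimensional F V] (φ : Form F V) (T : Finset (ℙ F V)) (hM : Mn φ T) (X : ℙ F V → ℤ)
    (hX : CC φ T X) (hlt : ∑ y, X y < 10) :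
    ∃ X' : ℙ F V → ℤ, CC φ T X' ∧ ∑ y, X' y = ∑ y, X y + 1 := by
  obtain ⟨fsup, ftf, fge, fsum⟩ := cc_f hM hX
  obtain ⟨X0, Xsup, Xtf⟩ := hX
  have hTne : T.Nonempty := by
    rw [← Finset.card_pos, hM.card]
    norm_num
  obtain ⟨z, hz⟩ := hTne
  obtain ⟨U, hU, hzU, htU⟩ := ((h5 φ).1 T hM).2 z hz
  have hXU : tf X U = 0 := by
    have a := Xtf U hU
    rw [htU] at a
    have b := tf_nonneg X0 U
    push_cast at a
    linarith
  have hX0U : ∀ y : ℙ F V, y.rep ∈ U → X y = 0 := by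
    intro y hy
    have a := le_tf X0 hy
    have b := X0 y
    rw [hXU] at a
    linarith
  have hfU : tf (fun y => chi T y - X y) U = 1 := by
    rw [ftf, htU, hXU]
    norm_num
  obtain ⟨N⟩ := h1 φ 4 hM.hs U hU
  obtain ⟨hr, -⟩ := h2 φ (fun y => chi T y - X y) hM.hs fsup
  obtain ⟨⟨hs1, -⟩, hs2, -⟩ := hr U hU N
  rw [hfU] at hs1
  have hpos : ∃ p, 1 ≤ tf (fun y => chi T y - X y) (N.nb p) - 1 := by
    by_contra hcon
    push Not at hcon
    have a : ∑ p, (tf (fun y => chi T y - X y) (N.nb p) - 1) ≤ 0 :=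
      Finset.sum_nonpos fun p _ => by
        have := hcon p
        omega
    rw [hs1] at a
    have b : ∑ y, (chi T y - X y) = 139 - ∑ y, X y := fsum
    rw [b] at a
    linarith
  obtain ⟨p, hp⟩ := hpos
  have hW := N.gen p
  have htW : 2 ≤ tt T (N.nb p) := by
    have a := tf_nonneg X0 (N.nb p)
    rw [ftf] at hp
    have b : (2 : ℤ) ≤ tt T (N.nb p) := by linarith
    exact_mod_cast b
  have hdim := (h4 φ 4 hM.hs U hU N).2 p
  obtain ⟨R, hRU, hRW, hRT, hs⟩ := (h6 φ T hM U hU htU).2 (N.nb p) hW (by omega) htW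
  have hXR := hX0U R hRU
  have hSR : φ.Sing R.rep := hU.1.1 R.rep hRU
  have hfR : chi T R - X R = 0 := by
    rw [chi_not hRT, hXR]
    norm_num
  have hs4 : s4 φ.toPolar (fun y => chi T y - X y) R = 2 - nf φ.toPolar X R := by
    have a : s4 φ.toPolar (fun y => chi T y - X y) R =
        nf φ.toPolar (fun y => chi T y - X y) R - 33 + 32 * (chi T R - X R) := rfl
    have b : s4 φ.toPolar (chi T) R = nf φ.toPolar (chi T) R - 33 + 32 * chi T R := rfl
    rw [a, hfR, nf_sub]
    rw [hs, chi_not hRT] at b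
    linarith
  have hle : s4 φ.toPolar (fun y => chi T y - X y) R ≤ 2 := by
    have := nf_nonneg φ.toPolar X0 R
    linarith
  have hge : 1 ≤ s4 φ.toPolar (fun y => chi T y - X y) R := by
    have a := (hs2 R hRU).1
    rw [hfU] at a
    have b : tf (fun y => chi T y - X y) (N.nb p) - 1 ≤
        ∑ p ∈ Finset.univ.filter (fun p => R.rep ∈ N.nb p),
          (tf (fun y => chi T y - X y) (N.nb p) - 1) :=
      Finset.single_le_sum (f := fun p => tf (fun y => chi T y - X y) (N.nb p) - 1)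
        (fun q _ => by
          have := fge _ (N.gen q)
          linarith) (Finset.mem_filter.2 ⟨Finset.mem_univ p, hRW⟩)
    linarith
  have hf139 : ∑ y, (chi T y - X y) ≤ 139 := by
    have a : 0 ≤ ∑ y, X y := Finset.sum_nonneg fun y _ => X0 y
    rw [fsum]
    linarith
  obtain ⟨Y, hY, hYU⟩ := h7 φ (fun y => chi T y - X y) hM.hs fsup fge hf139 R hSR hfR hge hle
  refine ⟨fun y => X y + del Y y, ⟨?_, Xsup.add (sup_del hY), ?_⟩, ?_⟩
  · intro y
    have a := X0 y
    have b : 0 ≤ del Y y := by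
      unfold del
      split_ifs <;> norm_num
    show 0 ≤ X y + del Y y
    linarith
  · intro U' hU'
    rw [tf_add, tf_del]
    split_ifs with h
    · have a := hYU U' hU' h
      rw [ftf] at a
      linarith
    · have := Xtf U' hU'
      linarith
  · rw [Finset.sum_add_distrib, sum_del]

theorem hEXA (h1 : StHNB) (h2 : StRFO) (h3 : StLBD) (h4 : StNBX) (h5 : StMNB) (h6 : StTAN)
    (h7 : StHLN) : StEXA := by
  intro F V _ _ _ _ _ _ φ T hM
  have key : ∀ n : ℕ, n ≤ 10 → ∃ X : ℙ F V → ℤ, CC φ T X ∧ ∑ y, X y = n := by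
    intro n
    induction n with
    | zero =>
      intro _
      refine ⟨fun _ => 0, ⟨fun _ => le_rfl, fun _ _ => rfl, ?_⟩, by simp⟩
      intro U hU
      have a := tt_pos hM.block hU
      have b : tf (fun _ : ℙ F V => (0 : ℤ)) U = 0 := Finset.sum_const_zero
      rw [b]
      have c : (1 : ℤ) ≤ tt T U := by exact_mod_cast a
      linarith
    | succ n ih =>
      intro hn
      obtain ⟨X, hX, hs⟩ := ih (by omega)
      obtain ⟨X', hX', hs'⟩ := step h1 h2 h4 h5 h6 h7 φ T hM X hX (by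
        rw [hs]
        have : (n : ℤ) + 1 ≤ 10 := by exact_mod_cast hn
        linarith)
      refine ⟨X', hX', ?_⟩
      rw [hs', hs]
      push_cast
      ring
  obtain ⟨X, hX, hs⟩ := key 10 le_rfl
  push_cast at hs
  obtain ⟨fsup, ftf, fge, fsum⟩ := cc_f hM hX
  have h129 : ∑ y, (chi T y - X y) = 129 := by
    rw [fsum, hs]
    norm_num
  have hall := ((h3 φ (fun y => chi T y - X y) fsup fge).2 hM.hs).2 h129
  have htt : ∀ U, φ.toPolar.Gen U → (tt T U : ℤ) = 1 + tf X U := by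
    intro U hU
    have a := hall U hU
    rw [ftf] at a
    linarith
  refine ⟨X, ⟨hX.1, hX.2.1, hs, htt, ?_⟩⟩
  intro z hz
  obtain ⟨U, hU, hzU, htU⟩ := ((h5 φ).1 T hM).2 z hz
  have a := htt U hU
  rw [htU] at a
  have b := le_tf hX.1 hzU
  have c := hX.1 z
  push_cast at a
  linarith

end Pool.Agent.Helper40.U4
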