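import Pool.Agent.Helper45.U4.St2

/-!
# Project U4 (MP_a1f43d_co), module OVC: the lines through `X1` which carry points of `f` form an ovoid
-/

set_option autoImplicit false
set_option maxRecDepth 100000

open Module Classical
open scoped LinearAlgebra.Projectivization

namespace Pool.Agent.Helper40.U4

open Pool.Agent.Helper45.U4 Pool.Agent.Helper53.PB

private lemma mask_all : ((List.range 4096).all fun n => (n &&& 195 != 0) ||
    ((wm n &&& 195 == 0) && orth 1 n && orth 2 n)) = true := by decide +kernel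

/-- codes with vanishing coordinates `0`, `1` -/
private lemma mask_facts (n : ℕ) (hn : n < 4096) (h : n &&& 195 = 0) :
    wm n &&& 195 = 0 ∧ orth 1 n = true ∧ orth 2 n = true := by
  have := List.all_eq_true.1 mask_all n (List.mem_range.2 hn)
  simp only [h, bne_self_eq_false, Bool.false_or, Bool.and_eq_true, beq_iff_eq] at this
  exact ⟨this.1.1, this.1.2, this.2⟩

private lemma mask_xor {m n : ℕ} (hm : m &&& 195 = 0) (hn : n &&& 195 = 0) :
    (m ^^^ n) &&& 195 = 0 := by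
  rw [Nat.and_xor_distrib_right, hm, hn]
  rfl

section

variable {F V : Type} [Field F] [AddCommGroup V] [Module F V]

private lemma iv_smul {f : ℙ F V → ℤ} {v : V} (h : IV f v) {a : F} (ha : a ≠ 0) :
    IV f (a • v) := by
  obtain ⟨hv, hf⟩ := h
  refine ⟨smul_ne_zero ha hv, ?_⟩
  have e : Projectivization.mk F (a • v) (smul_ne_zero ha hv) = Projectivization.mk F v hv := by
    rw [Projectivization.mk_eq_mk_iff']
    exact ⟨a, rfl⟩
  rw [e]
  exact hf

private lemma iv_rep {f : ℙ F V → ℤ} {y : ℙ F V} (h : 0 < f y) : IV f y.rep := by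
  refine ⟨y.rep_nonzero, ?_⟩
  rw [Projectivization.mk_rep]
  exact h

/-- the vectors of a line -/
private lemma combo_mem {ω : F} {b : Fin 6 → V} (hω : Om ω)
    (V1 : ∀ m n : ℕ, vv ω b (m ^^^ n) = vv ω b m + vv ω b n)
    (V2 : ∀ n : ℕ, n < 4096 → vv ω b (wm n) = ω • vv ω b n ∧ wm n < 4096)
    (V3 : ∀ m n : ℕ, m < 4096 → n < 4096 → m ^^^ n < 4096)
    (V0 : vv ω b 0 = 0) {a c : ℕ} (ha : a < 4096) (hc : c < 4096) (ha' : a &&& 195 = 0)
    (hc' : c &&& 195 = 0) (s : F) :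
    ∃ x ∈ combo2 a c, x < 4096 ∧ x &&& 195 = 0 ∧ vv ω b x = vv ω b a + s • vv ω b c := by
  have hw := (mask_facts c hc hc').1
  obtain ⟨hw2, hw3⟩ := V2 c hc
  rcases hω.all s with rfl | rfl | rfl | rfl
  · refine ⟨a ^^^ 0, by simp [combo2, mul4], V3 _ _ ha (by norm_num),
      mask_xor ha' (by simp), ?_⟩
    rw [V1, V0, zero_smul]
  · refine ⟨a ^^^ c, by simp [combo2, mul4], V3 _ _ ha hc, mask_xor ha' hc', ?_⟩
    rw [V1, one_smul]
  · refine ⟨a ^^^ wm c, by simp [combo2, mul4], V3 _ _ ha hw3, mask_xor ha' hw, ?_⟩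
    rw [V1, hw2]
  · refine ⟨a ^^^ (c ^^^ wm c), by simp [combo2, mul4], V3 _ _ ha (V3 _ _ hc hw3),
      mask_xor ha' (mask_xor hc' hw), ?_⟩
    rw [V1, V1, hw2, add_smul, one_smul, add_comm (ω • vv ω b c)]

/-- independence of two codes and `b 0` -/
private lemma indep {ω : F} {b : Fin 6 → V} (hω : Om ω) (g : Dual F V)
    (V1 : ∀ m n : ℕ, vv ω b (m ^^^ n) = vv ω b m + vv ω b n)
    (V2 : ∀ n : ℕ, n < 4096 → vv ω b (wm n) = ω • vv ω b n ∧ wm n < 4096)
    (V3 : ∀ m n : ℕ, m < 4096 → n < 4096 → m ^^^ n < 4096)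
    (V4 : ∀ n : ℕ, n < 4096 → vv ω b n = 0 → n = 0)
    {p q : ℕ} (hp : p < 4096) (hq : q < 4096) (hg : g (b 0) = 1) (hgp : g (vv ω b p) = 0)
    (hgq : g (vv ω b q) = 0) (hp0 : p ≠ 0) (hq0 : q ≠ 0) (h1 : p ^^^ q ≠ 0)
    (h2 : p ^^^ wm q ≠ 0) (h3 : p ^^^ q ^^^ wm q ≠ 0) (α β γ : F)
    (h : α • vv ω b p + β • vv ω b q + γ • b 0 = 0) : α = 0 ∧ β = 0 ∧ γ = 0 := by
  obtain ⟨hw2, hw3⟩ := V2 q hq
  have hγ : γ = 0 := by
    have := congrArg g h
    simpa [hgp, hgq, hg] using this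
  subst hγ
  rw [zero_smul, add_zero] at h
  have hα : α = 0 := by
    by_contra hα
    have e : vv ω b p + (α⁻¹ * β) • vv ω b q = 0 := by
      have := congrArg (fun v => α⁻¹ • v) h
      simpa [smul_add, smul_smul, hα] using this
    rcases hω.all (α⁻¹ * β) with h4 | h4 | h4 | h4
    · rw [h4, zero_smul, add_zero] at e
      exact hp0 (V4 p hp e)
    · rw [h4, one_smul, ← V1] at e
      exact h1 (V4 _ (V3 _ _ hp hq) e)
    · rw [h4, ← hw2, ← V1] at e
      exact h2 (V4 _ (V3 _ _ hp hw3) e)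
    · rw [h4, add_smul, one_smul, ← hw2, add_comm (vv ω b (wm q)), ← add_assoc, ← V1, ← V1] at e
      exact h3 (V4 _ (V3 _ _ (V3 _ _ hp hq) hw3) e)
  subst hα
  rw [zero_smul, zero_add] at h
  refine ⟨rfl, ?_, rfl⟩
  rcases smul_eq_zero.1 h with h5 | h5
  · exact h5
  · exact absurd (V4 q hq h5) hq0

end

theorem hOVC (h1 : StHF) (h2 : StVEC) (h3 : StORT) (h4 : StGEO) : StOVC := by
  intro F V _ _ _ _ _ _ φ f t X1 X2 D ω b hω hb hX1
  obtain ⟨-, hcube, fadd, fsmul, fsym, fsing, -, -⟩ := h1 φ D.hs.kind D.hs.card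
  obtain ⟨V1, V2, V3, V4', -, V0, Vb0, -, -, Vb1, -, -⟩ := h2 ω b hω
  have V4 := V4' hb.li
  obtain ⟨G1, G2, -, -⟩ := h4 φ f t X1 X2 D
  have hort : ∀ m n : ℕ, m < 4096 → n < 4096 → (orth m n = true ↔ φ.f (vv ω b m) (vv ω b n) = 0) :=
    h3 φ ω b D.hs.kind D.hs.card hω hb
  have g00 : φ.f (b 0) (b 0) = 0 := by rw [hb.gram]; simp [gm]
  have g10 : φ.f (b 1) (b 0) = 1 := by rw [hb.gram]; simp [gm]
  have c0 : ∀ n < 4096, n &&& 195 = 0 → φ.f (b 0) (vv ω b n) = 0 := by
    intro n hn hn'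
    rw [← Vb0]
    exact (hort 1 n (by norm_num) hn).1 (mask_facts n hn hn').2.1
  have c0' : ∀ n < 4096, n &&& 195 = 0 → φ.f (vv ω b n) (b 0) = 0 := by
    intro n hn hn'
    rw [fsym (b 0), c0 n hn hn']
    simp
  have c1 : ∀ n < 4096, n &&& 195 = 0 → φ.f (b 1) (vv ω b n) = 0 := by
    intro n hn hn'
    rw [← Vb1]
    exact (hort 2 n (by norm_num) hn).1 (mask_facts n hn hn').2.2
  obtain ⟨a0, ha0⟩ := Submodule.mem_span_singleton.1 hX1
  have hb0 : b 0 ≠ 0 := hb.li.ne_zero 0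
  have ha0' : a0 ≠ 0 := by
    rintro rfl
    rw [zero_smul] at ha0
    exact hb0 ha0.symm
  have hX1b : X1.rep = a0⁻¹ • b 0 := by
    rw [← ha0, smul_smul, inv_mul_cancel₀ ha0', one_smul]
  have hcm := fun (a c : ℕ) (ha : a < 4096) (hc : c < 4096) (ha' : a &&& 195 = 0)
    (hc' : c &&& 195 = 0) (s : F) => combo_mem hω V1 V2 V3 V0 ha hc ha' hc' s
  have hind := fun (p q : ℕ) (hp : p < 4096) (hq : q < 4096) (hp' : p &&& 195 = 0)
    (hq' : q &&& 195 = 0) => indep (b := b) hω (φ.f (b 1)) V1 V2 V3 V4 hp hq g10 (c1 p hp hp')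
      (c1 q hq hq')
  refine ⟨?_, ?_, ?_⟩
  · -- line
    intro a c hok
    simp only [okL, Bool.and_eq_true, decide_eq_true_eq, beq_iff_eq, List.all_eq_true, bne_iff_ne,
      ne_eq] at hok
    obtain ⟨⟨⟨⟨⟨⟨⟨ha, hc⟩, ha'⟩, hc'⟩, haa⟩, hcc⟩, hac⟩, hne⟩ := hok
    have n0 : a ≠ 0 := by
      have := hne (a ^^^ 0) (by simp [combo2, mul4])
      simpa using this
    have n1 : c ≠ 0 := hne c (by simp [combo2])
    have n2 : a ^^^ c ≠ 0 := hne _ (by simp [combo2, mul4])
    have n3 : a ^^^ wm c ≠ 0 := hne _ (by simp [combo2, mul4])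
    have n4 : a ^^^ c ^^^ wm c ≠ 0 := by
      have := hne (a ^^^ (c ^^^ wm c)) (by simp [combo2, mul4])
      rwa [← Nat.xor_assoc] at this
    have hI := hind a c ha hc ha' hc' n0 n1 n2 n3 n4
    have faa := (hort a a ha ha).1 haa
    have fcc := (hort c c hc hc).1 hcc
    have fac := (hort a c ha hc).1 hac
    have fca : φ.f (vv ω b c) (vv ω b a) = 0 := by
      rw [fsym (vv ω b a), fac]
      simp
    obtain ⟨w, hw⟩ : ∃ w : Fin 3 → V, w = ![b 0, vv ω b a, vv ω b c] := ⟨_, rfl⟩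
    have w0 : w 0 = b 0 := by rw [hw]; rfl
    have w1 : w 1 = vv ω b a := by rw [hw]; rfl
    have w2 : w 2 = vv ω b c := by rw [hw]; rfl
    have hli : LinearIndependent F w := by
      rw [Fintype.linearIndependent_iff]
      intro g hg
      rw [Fin.sum_univ_three, w0, w1, w2] at hg
      obtain ⟨i1, i2, i3⟩ := hI (g 1) (g 2) (g 0) (by rw [← hg]; abel)
      intro i
      fin_cases i
      · exact i3
      · exact i1
      · exact i2
    have hperp : ∀ i j, φ.f (w i) (w j) = 0 := by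
      intro i j
      fin_cases i <;> fin_cases j
      · show φ.f (w 0) (w 0) = 0
        rw [w0, g00]
      · show φ.f (w 0) (w 1) = 0
        rw [w0, w1, c0 a ha ha']
      · show φ.f (w 0) (w 2) = 0
        rw [w0, w2, c0 c hc hc']
      · show φ.f (w 1) (w 0) = 0
        rw [w0, w1, c0' a ha ha']
      · show φ.f (w 1) (w 1) = 0
        rw [w1, faa]
      · show φ.f (w 1) (w 2) = 0
        rw [w1, w2, fac]
      · show φ.f (w 2) (w 0) = 0
        rw [w0, w2, c0' c hc hc']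
      · show φ.f (w 2) (w 1) = 0
        rw [w1, w2, fca]
      · show φ.f (w 2) (w 2) = 0
        rw [w2, fcc]
    have hp1 : ∀ y ∈ Submodule.span F (Set.range w), ∀ i, φ.toPolar.f y (w i) = 0 := by
      intro y hy i
      refine Polar.perp_span (P := φ.toPolar) (S := Set.range w) ?_ hy
      rintro _ ⟨j, rfl⟩
      exact hperp j i
    have hp2 : ∀ x ∈ Submodule.span F (Set.range w), ∀ y ∈ Submodule.span F (Set.range w),
        φ.toPolar.f x y = 0 := by
      intro x hx y hy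
      refine Polar.perp_span (P := φ.toPolar) (S := Set.range w) ?_ hx
      rintro _ ⟨j, rfl⟩
      exact φ.toPolar.symm _ _ (hp1 y hy j)
    obtain ⟨y, hyU, hfy⟩ := G1 (Submodule.span F (Set.range w))
      ⟨fun x hx => (fsing x).2 (hp2 x hx x hx), hp2⟩ (by rw [finrank_span_eq_card hli]; simp)
    obtain ⟨g, hg⟩ := (Submodule.mem_span_range_iff_exists_fun F).1 hyU
    rw [Fin.sum_univ_three, w0, w1, w2] at hg
    by_cases g1 : g 1 = 0
    · by_cases g2 : g 2 = 0
      · exfalso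
        have e : y = X1 := by
          apply eq_of_rep_mem_span
          rw [← hg, g1, g2, zero_smul, zero_smul, add_zero, add_zero, ← ha0, smul_smul]
          exact Submodule.smul_mem _ _ (Submodule.mem_span_singleton_self _)
        rw [e, D.z1] at hfy
        exact lt_irrefl _ hfy
      · refine ⟨c, by simp [combo2], hc, hc', n1, (g 2)⁻¹ * g 0, ?_⟩
        have e : vv ω b c + ((g 2)⁻¹ * g 0) • b 0 = (g 2)⁻¹ • y.rep := by
          rw [← hg, g1, zero_smul, add_zero, smul_add, smul_smul, smul_smul, inv_mul_cancel₀ g2,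
            one_smul, add_comm]
        rw [e]
        exact iv_smul (iv_rep hfy) (inv_ne_zero g2)
    · obtain ⟨x, hx, hx1, hx2, hx3⟩ := hcm a c ha hc ha' hc' ((g 1)⁻¹ * g 2)
      refine ⟨x, hx, hx1, hx2, hne x hx, (g 1)⁻¹ * g 0, ?_⟩
      have e : vv ω b x + ((g 1)⁻¹ * g 0) • b 0 = (g 1)⁻¹ • y.rep := by
        rw [← hg, hx3, smul_add, smul_add, smul_smul, smul_smul, smul_smul, inv_mul_cancel₀ g1,
          one_smul]
        abel
      rw [e]
      exact iv_smul (iv_rep hfy) (inv_ne_zero g1)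
  · -- conf
    rintro p q ⟨hp, hp', hp0, x, hx⟩ ⟨hq, hq', hq0, y, hy⟩ hconf
    simp only [conflict, okv, Bool.and_eq_true, bne_iff_ne, ne_eq, beq_self_eq_true, Bool.true_or,
      and_true] at hconf
    obtain ⟨⟨⟨ho, e1⟩, e2⟩, e3⟩ := hconf
    have hI := hind p q hp hq hp' hq' hp0 hq0 e1.1 e2.1 e3.1
    have fpq := (hort p q hp hq).1 ho
    obtain ⟨hx0, hxf⟩ := hx
    obtain ⟨hy0, hyf⟩ := hy
    obtain ⟨u, hu⟩ := Projectivization.exists_smul_eq_mk_rep F _ hx0
    obtain ⟨w, hw⟩ := Projectivization.exists_smul_eq_mk_rep F _ hy0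
    rw [Units.smul_def] at hu hw
    have hu0 : (u : F) ≠ 0 := u.ne_zero
    obtain ⟨P, hP⟩ : ∃ P, P = Projectivization.mk F _ hx0 := ⟨_, rfl⟩
    obtain ⟨Q, hQ⟩ : ∃ Q, Q = Projectivization.mk F _ hy0 := ⟨_, rfl⟩
    rw [← hP] at hu hxf
    rw [← hQ] at hw hyf
    have hne : P ≠ Q := by
      intro h
      rw [h, ← hw] at hu
      have h5 : (u : F) • vv ω b p + (-(w : F)) • vv ω b q + ((u : F) * x - w * y) • b 0 = 0 := by
        rw [smul_add, smul_add, smul_smul, smul_smul] at hu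
        rw [neg_smul, sub_smul]
        have h6 := sub_eq_zero.2 hu
        rw [← h6]
        abel
      exact hu0 (hI _ _ _ h5).1
    have b0p : φ.f (b 0) P.rep = 0 := by
      rw [← hu, map_smul, map_add, map_smul, c0 p hp hp', g00]
      simp
    have b0q : φ.f (b 0) Q.rep = 0 := by
      rw [← hw, map_smul, map_add, map_smul, c0 q hq hq', g00]
      simp
    have hperp : φ.f P.rep Q.rep = 0 := by
      have h5 : φ.f (vv ω b p) Q.rep = 0 := by
        rw [← hw, map_smul, map_add, map_smul, fpq, c0' p hp hp']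
        simp
      rw [← hu, fsmul, fadd, fsmul, h5, b0q]
      simp
    have hmul : ∀ z, z ∈ line P Q → φ.f X1.rep z = 0 := by
      intro z hz
      obtain ⟨α, β, hz⟩ := mem_line.1 hz
      rw [← hz, hX1b, fsmul, map_add, map_smul, map_smul, b0p, b0q]
      simp
    rcases G2 P Q hne hxf hyf hperp with ⟨-, h5⟩ | ⟨-, h5⟩
    · obtain ⟨α, β, h6⟩ := mem_line.1 h5
      rw [hX1b, ← hu, ← hw] at h6
      have h7 : (α * u) • vv ω b p + (β * w) • vv ω b q +
          (α * u * x + β * w * y - a0⁻¹) • b 0 = 0 := by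
        rw [sub_smul, ← h6, add_smul, smul_smul, smul_smul, smul_add, smul_add, smul_smul, smul_smul]
        abel
      obtain ⟨i1, i2, i3⟩ := hI _ _ _ h7
      rw [i1, i2] at i3
      apply ha0'
      simpa using i3
    · exact D.ne (hmul _ h5)
  · -- scal
    rintro p ⟨hp, hp', hp0, c, hc⟩
    have hm := (mask_facts p hp hp').1
    obtain ⟨hw2, hw3⟩ := V2 p hp
    have hω1 : 1 + ω ≠ 0 := by
      intro h
      have h5 := hω.sq
      rw [add_comm, h] at h5
      exact hω.ne (pow_eq_zero_iff (two_ne_zero) |>.1 h5)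
    have e1 : vv ω b (wm p) + (ω * c) • b 0 = ω • (vv ω b p + c • b 0) := by
      rw [hw2, smul_add, smul_smul]
    have e2 : vv ω b (p ^^^ wm p) + ((1 + ω) * c) • b 0 = (1 + ω) • (vv ω b p + c • b 0) := by
      rw [V1, hw2, smul_add, smul_smul, add_smul 1 ω (vv ω b p), one_smul]
    have hvp : vv ω b p ≠ 0 := fun h => hp0 (V4 p hp h)
    refine ⟨⟨hw3, hm, ?_, ω * c, ?_⟩, ⟨V3 _ _ hp hw3, mask_xor hp' hm, ?_, (1 + ω) * c, ?_⟩⟩
    · intro h
      have h5 : ω • vv ω b p = 0 := by rw [← hw2, h, V0]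
      exact (smul_ne_zero hω.ne hvp) h5
    · rw [e1]
      exact iv_smul hc hω.ne
    · intro h
      have h5 : (1 + ω) • vv ω b p = 0 := by
        rw [add_smul, one_smul, ← hw2, ← V1, h, V0]
      exact (smul_ne_zero hω1 hvp) h5
    · rw [e2]
      exact iv_smul hc hω1

end Pool.Agent.Helper40.U4
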